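import Pool.Agent.Helper15.BP.Slope
import Pool.Agent.Helper15.BP.Sec

/-!
# From groups of exponent two to all finite abelian 2-groups, without loss
-/

set_option autoImplicit false

namespace Pool.Agent.Helper73.BG

open Pool.Agent.Helper15.BP

variable {G : Type} [AddCommGroup G]

/-- The subgroup of all `x` with `2 x ∈ H`. -/
def half (H : AddSubgroup G) : AddSubgroup G := H.comap (nsmulAddMonoidHom 2 : G →+ G)

theorem mem_half (H : AddSubgroup G) (x : G) : x ∈ half H ↔ 2 • x ∈ H := by
  unfold half
  rw [AddSubgroup.mem_comap]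
  rfl

theorem le_half (H : AddSubgroup G) : H ≤ half H := by
  intro x hx
  rw [mem_half]
  exact H.nsmul_mem hx 2

theorem relIndex_half [Finite G] (H : AddSubgroup G) :
    H.relIndex (half H) = (H ⊔ dbl G).index := by
  have h1 : (half H).index = H.relIndex (dbl G) := by
    unfold half dbl
    exact AddSubgroup.index_comap H _
  have h2 : H.relIndex (half H) * (half H).index = H.index :=
    AddSubgroup.relIndex_mul_index (le_half H)
  have h3 : H.relIndex (H ⊔ dbl G) * (H ⊔ dbl G).index = H.index :=
    AddSubgroup.relIndex_mul_index le_sup_left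
  have h4 : H.relIndex (H ⊔ dbl G) = H.relIndex (dbl G) := by
    rw [sup_comm]
    exact AddSubgroup.relIndex_sup_right _ _
  have h5 : (half H).index ≠ 0 := AddSubgroup.index_ne_zero_of_finite
  rw [h4, ← h1, mul_comm] at h3
  exact Nat.eq_of_mul_eq_mul_right (Nat.pos_of_ne_zero h5) (h2.trans h3.symm)

theorem half_ne (H : AddSubgroup G) (hH : H ≠ ⊤) (hG : ∃ k : ℕ, ∀ x : G, (2 ^ k : ℕ) • x = 0) :
    half H ≠ H := by
  intro h
  apply hH
  obtain ⟨k, hk⟩ := hG
  rw [eq_top_iff]
  intro x _
  have key : ∀ j : ℕ, ∀ x : G, (2 ^ j : ℕ) • x ∈ H → x ∈ H := by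
    intro j
    induction j with
    | zero =>
      intro x hx
      rwa [pow_zero, one_smul] at hx
    | succ j ih =>
      intro x hx
      rw [pow_succ, mul_smul] at hx
      have h1 := ih (2 • x) hx
      rw [← mem_half, h] at h1
      exact h1
  apply key k x
  rw [hk]
  exact H.zero_mem

/-- Lemma R' modulo all subgroups: contraction for groups of exponent two gives the same
contraction for all finite abelian 2-groups, slopes being measured by ranks. -/
theorem add_D_le_of_contr {κ σ : ℝ} (hc : Contr κ σ) [Finite G]
    (hG : ∃ k : ℕ, ∀ x : G, (2 ^ k : ℕ) • x = 0) (A : Fam G) (hA : Slope A κ)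
    (H : AddSubgroup G) : (A.add A).D H ≤ σ * A.D H := by
  classical
  have key : ∀ n : ℕ, ∀ H : AddSubgroup G, H.index ≤ n → (A.add A).D H ≤ σ * A.D H := by
    intro n
    induction n with
    | zero =>
      intro H hH
      exact absurd (Nat.le_zero.mp hH) AddSubgroup.index_ne_zero_of_finite
    | succ n ih =>
      intro H hH
      by_cases htop : H = ⊤
      · rw [htop, Fam.D_top, Fam.D_top, mul_zero]
      -- the maximiser
      obtain ⟨V, hHV, hVT, hVH, hmax⟩ : ∃ V : AddSubgroup G, H ≤ V ∧ V ≤ half H ∧ V ≠ H ∧
          ∀ K, H ≤ K → K ≤ half H → A.D K + κ * Real.log (H.relIndex K) ≤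
            A.D V + κ * Real.log (H.relIndex V) := by
        have hfin : Set.Finite {K : AddSubgroup G | H ≤ K ∧ K ≤ half H} := Set.toFinite _
        obtain ⟨V, ⟨hV1, hV2⟩, hV3⟩ := Set.exists_max_image _
          (fun K => A.D K + κ * Real.log (H.relIndex K)) hfin ⟨H, le_refl _, le_half H⟩
        by_cases hVH : V = H
        · refine ⟨half H, le_half H, le_refl _, half_ne H htop hG, ?_⟩
          intro K hK1 hK2
          refine (hV3 K ⟨hK1, hK2⟩).trans ?_
          rw [hVH, AddSubgroup.relIndex_self, Nat.cast_one, Real.log_one, mul_zero, add_zero,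
            relIndex_half]
          have h1 := hA H
          have h2 := A.D_nonneg (half H)
          linarith
        · exact ⟨V, hV1, hV2, hVH, fun K hK1 hK2 => hV3 K ⟨hK1, hK2⟩⟩
      have hidx : ∀ S : AddSubgroup G, S.index ≠ 0 := fun S => AddSubgroup.index_ne_zero_of_finite
      have hrel : ∀ S T : AddSubgroup G, S ≤ T → (S.relIndex T : ℝ) ≠ 0 := by
        intro S T hST h0
        have h1 := AddSubgroup.relIndex_mul_index hST
        have h2 : S.relIndex T = 0 := by exact_mod_cast h0
        rw [h2, zero_mul] at h1
        exact hidx S h1.symm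
      have hVn : V.index ≤ n := by
        have h1 := AddSubgroup.relIndex_mul_index hHV
        have h2 : 2 ≤ H.relIndex V := by
          by_contra h3
          push Not at h3
          have h4 : H.relIndex V ≠ 0 := by exact_mod_cast hrel H V hHV
          have h5 : H.relIndex V = 1 := by omega
          rw [AddSubgroup.relIndex_eq_one] at h5
          exact hVH (le_antisymm h5 hHV)
        have h3 : 0 < V.index := Nat.pos_of_ne_zero (hidx V)
        nlinarith
      have h1 := ih V hVn
      have h2 := D_two_le A hHV
      have h3 : secD A V H ≤ σ * (A.D H - A.D V) := by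
        refine secD_section hc A hHV (fun x hx => ?_) ?_
        · rw [← two_nsmul]
          exact (mem_half H x).mp (hVT hx)
        intro K hK1 hK2
        rw [← log_index_sub hK2]
        have h4 := hmax K hK1 (hK2.trans hVT)
        have h5 : H.relIndex K * K.relIndex V = H.relIndex V :=
          AddSubgroup.relIndex_mul_relIndex H K V hK1 hK2
        have h6 : Real.log (H.relIndex V) = Real.log (H.relIndex K) + Real.log (K.relIndex V) := by
          rw [← h5]
          push_cast
          exact Real.log_mul (hrel H K hK1) (hrel K V hK2)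
        rw [h6] at h4
        linarith
      linarith
  exact key _ H (le_refl _)

/-- **Lemma R'**. -/
theorem contrR_of_contr (κ σ : ℝ) (hc : Contr κ σ) : ContrR κ σ := by
  intro G _ _ hG A hA
  exact add_D_le_of_contr hc hG A hA ⊥

end Pool.Agent.Helper73.BG
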