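import Pool.Agent.Helper25.P2.Base
import Pool.Agent.Helper73.BG.Rank

/-!
# m-fold sums: splitting along a subgroup, transfer to 2-groups, support
-/

set_option autoImplicit false

namespace Pool.Agent.Helper15.BP

namespace Fam

variable {G : Type} [AddCommGroup G]

/-- The sum of `m + 1` independent copies. -/
def mF {G : Type} [AddCommGroup G] (A : Fam G) : ℕ → Fam G
  | 0 => A
  | m + 1 => A.add (mF A m)

theorem Fine.refl (A : Fam G) : Fine A A := (Sim.refl A).fine

theorem Fine.trans {A B C : Fam G} (h : Fine A B) (h' : Fine B C) : Fine A C := by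
  obtain ⟨e, h1, h2, h3⟩ := h
  obtain ⟨e', h1', h2', h3'⟩ := h'
  refine ⟨e.trans e', fun o => ?_, fun o o' h => ?_, fun o o' h => ?_⟩
  · rw [Equiv.trans_apply, h1', h1]
  · exact h2 _ _ (h2' _ _ h)
  · rw [h3 _ _ (h2' _ _ h), h3' _ _ h]
    rfl

theorem mF_mod (A : Fam G) (V : AddSubgroup G) (m : ℕ) :
    (mF A m).mod V = mF (A.mod V) m := by
  induction m with
  | zero => rfl
  | succ m ih =>
    change (A.mod V).add ((mF A m).mod V) = (A.mod V).add (mF (A.mod V) m)
    rw [ih]

theorem fine_mF_resV (A : Fam G) (V : AddSubgroup G) (m : ℕ) :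
    Fine ((mF A m).resV V) (mF (A.resV V) m) := by
  induction m with
  | zero => exact Fine.refl _
  | succ m ih => exact (fine_add_resV A (mF A m) V).trans (Fine.add (Fine.refl _) ih)

theorem mF_D_mod [Finite G] (A : Fam G) (V : AddSubgroup G) (m : ℕ) :
    (mF (A.mod V) m).D ⊥ = (mF A m).D V := by
  rw [← mF_mod, mod_D_bot]

/-- Splitting the deficiency of an `m`-fold sum. -/
theorem mF_le [Finite G] (A : Fam G) (V : AddSubgroup G) (m : ℕ) :
    (mF A m).D ⊥ ≤ (mF (A.mod V) m).D ⊥ + (mF (A.resV V) m).D ⊥ := by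
  have h1 := (fine_mF_resV A V m).D_le ⊥
  rw [resV_D_bot] at h1
  rw [mF_D_mod]
  linarith

theorem Sim.mF {A B : Fam G} (h : Sim A B) (m : ℕ) : Sim (mF A m) (mF B m) := by
  induction m with
  | zero => exact h
  | succ m ih => exact Sim.add h ih

/-- More summands, smaller deficiency. -/
theorem mF_succ_le [Finite G] (A : Fam G) (H : AddSubgroup G) (m : ℕ) :
    (mF A (m + 1)).D H ≤ (mF A m).D H := D_add_le' A (mF A m) H

end Fam

/-- contraction of `(m + 1)`-fold sums for groups of exponent two -/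
def ContrM (m : ℕ) (lam σ : ℝ) : Prop :=
  ∀ (G : Type) [AddCommGroup G] [Finite G], (∀ x : G, x + x = 0) → ∀ A : Fam G,
    (∀ K : AddSubgroup G, A.D K ≤ lam * Real.log K.index) → (A.mF m).D ⊥ ≤ σ * A.D ⊥

/-- contraction of `(m + 1)`-fold sums for finite abelian 2-groups -/
def ContrRM (m : ℕ) (κ σ : ℝ) : Prop :=
  ∀ (G : Type) [AddCommGroup G] [Finite G], (∃ k : ℕ, ∀ x : G, (2 ^ k : ℕ) • x = 0) →
    ∀ A : Fam G, Slope A κ → (A.mF m).D ⊥ ≤ σ * A.D ⊥

open Pool.Agent.Helper73.BG in
/-- **Lemma R'** for `m`-fold sums. -/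
theorem contrRM_of_contrM (m : ℕ) (κ σ : ℝ) (hc : ContrM m κ σ) : ContrRM m κ σ := by
  intro G _ _ hG A hA
  have key : ∀ n : ℕ, ∀ (G : Type) [AddCommGroup G] [Finite G],
      (∃ k : ℕ, ∀ x : G, (2 ^ k : ℕ) • x = 0) → ∀ A : Fam G, Slope A κ → Nat.card G ≤ n →
        (A.mF m).D ⊥ ≤ σ * A.D ⊥ := by
    intro n
    induction n with
    | zero =>
      intro G _ _ _ A _ hn
      exact absurd (Nat.le_zero.mp hn) Nat.card_pos.ne'
    | succ n ih =>
      intro G _ _ hG A hA hn
      classical
      by_cases htop : (⊥ : AddSubgroup G) = ⊤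
      · rw [htop, Fam.D_top, Fam.D_top, mul_zero]
      have hidx : ∀ S : AddSubgroup G, S.index ≠ 0 := fun S => AddSubgroup.index_ne_zero_of_finite
      have hrel : ∀ S T : AddSubgroup G, S ≤ T → (S.relIndex T : ℝ) ≠ 0 := by
        intro S T hST h0
        have h1 := AddSubgroup.relIndex_mul_index hST
        have h2 : S.relIndex T = 0 := by exact_mod_cast h0
        rw [h2, zero_mul] at h1
        exact hidx S h1.symm
      -- the maximiser
      obtain ⟨V, hVT, hVH, hmax⟩ : ∃ V : AddSubgroup G, V ≤ half ⊥ ∧ V ≠ ⊥ ∧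
          ∀ K, K ≤ half ⊥ → A.D K + κ * Real.log ((⊥ : AddSubgroup G).relIndex K) ≤
            A.D V + κ * Real.log ((⊥ : AddSubgroup G).relIndex V) := by
        have hfin : Set.Finite {K : AddSubgroup G | K ≤ half ⊥} := Set.toFinite _
        obtain ⟨V, hV2, hV3⟩ := Set.exists_max_image _
          (fun K => A.D K + κ * Real.log ((⊥ : AddSubgroup G).relIndex K)) hfin
          ⟨⊥, (bot_le : (⊥ : AddSubgroup G) ≤ half ⊥)⟩
        by_cases hVH : V = ⊥
        · refine ⟨half ⊥, le_refl _, half_ne ⊥ htop hG, ?_⟩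
          intro K hK2
          refine (hV3 K hK2).trans ?_
          rw [hVH, AddSubgroup.relIndex_self, Nat.cast_one, Real.log_one, mul_zero, add_zero,
            relIndex_half]
          have h1 := hA ⊥
          have h2 := A.D_nonneg (half ⊥)
          linarith
        · exact ⟨V, hV2, hVH, fun K hK2 => hV3 K hK2⟩
      -- the quotient
      have hcard : Nat.card (G ⧸ V) ≤ n := by
        have h1 : V.index * Nat.card V = Nat.card G := V.index_mul_card
        have h2 : 2 ≤ Nat.card V := by
          have h3 : 1 < Nat.card V := by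
            rw [← AddSubgroup.one_lt_card_iff_ne_bot] at hVH
            exact hVH
          exact h3
        have h3 : Nat.card (G ⧸ V) = V.index := rfl
        have h4 : 0 < V.index := Nat.pos_of_ne_zero (hidx V)
        rw [h3]
        nlinarith
      have h1 := ih (G ⧸ V) (quot_two_pow V hG) (A.mod V) (hA.mod V) hcard
      rw [Fam.mod_D_bot] at h1
      -- the section
      have h2 : ((A.resV V).mF m).D ⊥ ≤ σ * (A.D ⊥ - A.D V) := by
        rw [← Fam.resV_D_bot]
        apply hc V
        · intro x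
          have h3 := (mem_half ⊥ (x : G)).mp (hVT x.2)
          rw [AddSubgroup.mem_bot] at h3
          apply Subtype.ext
          rw [AddSubgroup.coe_add, ← two_nsmul]
          exact h3
        · intro K
          rw [Fam.resV_D]
          have h4 := hmax (K.map V.subtype) ((Fam.map_subtype_le V K).trans hVT)
          have h5 : (⊥ : AddSubgroup G).relIndex (K.map V.subtype) *
              (K.map V.subtype).relIndex V = (⊥ : AddSubgroup G).relIndex V :=
            AddSubgroup.relIndex_mul_relIndex ⊥ (K.map V.subtype) V bot_le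
              (Fam.map_subtype_le V K)
          have h6 : Real.log ((⊥ : AddSubgroup G).relIndex V) =
              Real.log ((⊥ : AddSubgroup G).relIndex (K.map V.subtype)) +
                Real.log ((K.map V.subtype).relIndex V) := by
            rw [← h5]
            push_cast
            exact Real.log_mul (hrel ⊥ _ bot_le) (hrel _ V (Fam.map_subtype_le V K))
          have h7 : Real.log ((K.map V.subtype).relIndex V) = Real.log K.index := by
            rw [log_index_sub (Fam.map_subtype_le V K), Fam.log_index_map]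
            ring
          rw [h6, h7] at h4
          linarith
      have h3 := Fam.mF_le A V m
      linarith
  exact key _ G hG A hA (le_refl _)

/-! ### Support -/

theorem mF_mem {G : Type} [AddCommGroup G] (A : Set G) (V : AddSubgroup G) (x : G)
    (B : Fam V) (hB : ∀ o, x + (B.Y o : G) ∈ A) (m : ℕ) :
    ∀ o, ∃ a : Fin (m + 1) → G, (∀ i, a i ∈ A) ∧
      (m + 1) • x + ((B.mF m).Y o : G) = ∑ i, a i := by
  induction m with
  | zero =>
    intro o
    refine ⟨fun _ => x + (B.Y o : G), fun _ => hB o, ?_⟩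
    simp [Fam.mF]
  | succ m ih =>
    rintro ⟨o, o'⟩
    obtain ⟨b, hb, hb'⟩ := ih o'
    refine ⟨Fin.cons (x + (B.Y o : G)) b, ?_, ?_⟩
    · intro i
      refine Fin.cases ?_ (fun j => ?_) i
      · exact hB o
      · exact hb j
    · rw [Fin.sum_univ_succ]
      simp only [Fin.cons_zero, Fin.cons_succ]
      rw [← hb']
      have h2 : (((B.mF (m + 1)).Y (o, o') : V) : G) =
          (B.Y o : G) + ((B.mF m).Y o' : G) := rfl
      rw [h2, add_nsmul (m := m + 1) (n := 1), one_nsmul]
      abel

/-- if the `(m+1)`-fold sum family has deficiency less than `log 2`, then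
`V ⊆ (m+1) A - (m+1) A` -/
theorem support_diff_m {G : Type} [AddCommGroup G] [Finite G] (A : Set G) (V : AddSubgroup G)
    (x : G) (B : Fam V) (hB : ∀ o, x + (B.Y o : G) ∈ A) (m : ℕ)
    (h : (B.mF m).D ⊥ < Real.log 2) :
    ∀ v ∈ V, ∃ a b : Fin (m + 1) → G, (∀ i, a i ∈ A) ∧ (∀ i, b i ∈ A) ∧
      v = ∑ i, a i - ∑ i, b i := by
  intro v hv
  set P : Set V := {u : V | ∃ a : Fin (m + 1) → G, (∀ i, a i ∈ A) ∧
    (m + 1) • x + (u : G) = ∑ i, a i} with hP
  have h1 := Pool.Agent.Helper25.BP.half_of_D (B.mF m) P (mF_mem A V x B hB m) h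
  obtain ⟨p, ⟨a, ha, ha'⟩, q, ⟨b, hb, hb'⟩, hpq⟩ :=
    Pool.Agent.Helper25.BP.exists_sub P h1 ⟨v, hv⟩
  refine ⟨a, b, ha, hb, ?_⟩
  have h2 := congrArg (fun z : V => (z : G)) hpq
  simp only [AddSubgroup.coe_sub] at h2
  rw [← h2, ← ha', ← hb']
  abel

end Pool.Agent.Helper15.BP
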