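import Mathlib

/-!
# Finite subgroups are dense in the annihilator of the limit of their annihilators
-/

set_option autoImplicit false

open Filter

namespace Pool.Agent.Helper73.BG

/-- The embedding of `(Z/2^k)^d` in the `d`-torus. -/
noncomputable def emb (d k : ℕ) : (Fin d → ZMod (2 ^ k)) →+ (Fin d → UnitAddCircle) where
  toFun a := fun i => ZMod.toAddCircle (a i)
  map_zero' := by
    funext i
    simp
  map_add' a b := by
    funext i
    simp

/-- The value of an integer character. -/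
def pair {d : ℕ} (l : Fin d → ℤ) (x : Fin d → UnitAddCircle) : UnitAddCircle :=
  ∑ i, l i • x i

theorem pair_sub {d : ℕ} (l : Fin d → ℤ) (x y : Fin d → UnitAddCircle) :
    pair l (x - y) = pair l x - pair l y := by
  unfold pair
  rw [← Finset.sum_sub_distrib]
  apply Finset.sum_congr rfl
  intro i _
  rw [Pi.sub_apply, smul_sub]

theorem pair_add {d : ℕ} (l : Fin d → ℤ) (x y : Fin d → UnitAddCircle) :
    pair l (x + y) = pair l x + pair l y := by
  unfold pair
  rw [← Finset.sum_add_distrib]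
  apply Finset.sum_congr rfl
  intro i _
  rw [Pi.add_apply, smul_add]

theorem pair_emb {d k : ℕ} (l : Fin d → ℤ) (a : Fin d → ZMod (2 ^ k)) :
    pair l (emb d k a) = ZMod.toAddCircle (∑ t, (l t : ZMod (2 ^ k)) * a t) := by
  unfold pair
  rw [map_sum]
  apply Finset.sum_congr rfl
  intro i _
  change l i • ZMod.toAddCircle (a i) = _
  rw [← map_zsmul, zsmul_eq_mul]

theorem toCircle_sum {ι : Type*} (s : Finset ι) (f : ι → UnitAddCircle) :
    AddCircle.toCircle (∑ i ∈ s, f i) = ∏ i ∈ s, AddCircle.toCircle (f i) := by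
  classical
  induction s using Finset.induction_on with
  | empty => rw [Finset.sum_empty, Finset.prod_empty, AddCircle.toCircle_zero]
  | insert a s ha ih => rw [Finset.sum_insert ha, Finset.prod_insert ha, AddCircle.toCircle_add, ih]

/-- The kernel `|(1 + z) / 2|^(2n)` as a trigonometric polynomial with nonnegative coefficients. -/
theorem kernel_expand (n : ℕ) (y : UnitAddCircle) :
    ((‖(1 + (AddCircle.toCircle y : ℂ)) / 2‖ ^ (2 * n) : ℝ) : ℂ) =
      ∑ j ∈ Finset.range (2 * n + 1), (((2 * n).choose j / 4 ^ n : ℝ) : ℂ) *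
        (AddCircle.toCircle (((j : ℤ) - n) • y) : ℂ) := by
  set z : ℂ := (AddCircle.toCircle y : ℂ) with hz
  have hz1 : ‖z‖ = 1 := Circle.norm_coe _
  have hz0 : z ≠ 0 := by
    intro h
    rw [h, norm_zero] at hz1
    exact zero_ne_one hz1
  have h1 : ((‖(1 + z) / 2‖ ^ 2 : ℝ) : ℂ) = (1 + z) ^ 2 / (4 * z) := by
    have h2 : ((‖(1 + z) / 2‖ ^ 2 : ℝ) : ℂ) = ((1 + z) / 2) * (starRingEnd ℂ) ((1 + z) / 2) := by
      rw [Complex.mul_conj, Complex.normSq_eq_norm_sq]
    have h3 : (starRingEnd ℂ) z = z⁻¹ := by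
      rw [Complex.inv_def, Complex.normSq_eq_norm_sq, hz1]
      simp
    rw [h2, map_div₀, map_add, map_one, h3]
    have h4 : (starRingEnd ℂ) (2 : ℂ) = 2 := Complex.conj_ofNat 2
    rw [h4]
    field_simp
    ring
  have h5 : ((‖(1 + z) / 2‖ ^ (2 * n) : ℝ) : ℂ) = ((1 + z) ^ 2 / (4 * z)) ^ n := by
    rw [← h1, pow_mul]
    push_cast
    rfl
  rw [h5, div_pow, ← pow_mul, mul_pow, add_comm 1 z, add_pow, Finset.sum_div]
  apply Finset.sum_congr rfl
  intro j hj
  rw [AddCircle.toCircle_zsmul, Circle.coe_zpow, ← hz, zpow_sub₀ hz0, one_pow, mul_one]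
  push_cast
  rw [zpow_natCast, zpow_natCast]
  field_simp

/-- The kernel on the torus. -/
noncomputable def ker {d : ℕ} (n : ℕ) (y : Fin d → UnitAddCircle) : ℝ :=
  ∏ i, ‖(1 + (AddCircle.toCircle (y i) : ℂ)) / 2‖ ^ (2 * n)

theorem kernel_prod {d : ℕ} (n : ℕ) (y : Fin d → UnitAddCircle) :
    ((ker n y : ℝ) : ℂ) =
      ∑ J ∈ Fintype.piFinset (fun _ : Fin d => Finset.range (2 * n + 1)),
        (((∏ i, ((2 * n).choose (J i) / 4 ^ n : ℝ)) : ℝ) : ℂ) *
          (AddCircle.toCircle (pair (fun i => (J i : ℤ) - n) y) : ℂ) := by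
  classical
  unfold ker
  rw [Complex.ofReal_prod]
  rw [Finset.prod_congr rfl (fun i _ => kernel_expand n (y i))]
  rw [Finset.prod_univ_sum]
  apply Finset.sum_congr rfl
  intro J _
  rw [Finset.prod_mul_distrib, Complex.ofReal_prod]
  congr 1
  unfold pair
  rw [toCircle_sum]
  exact (map_prod Circle.coeHom _ _).symm

/-- The additive character of a subgroup of `(Z/2^k)^d` given by an integer vector. -/
noncomputable def sch {d k : ℕ} (V : AddSubgroup (Fin d → ZMod (2 ^ k))) (l : Fin d → ℤ) :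
    AddChar V ℂ where
  toFun a := (AddCircle.toCircle (-pair l (emb d k a)) : ℂ)
  map_zero_eq_one' := by
    have h : pair l (emb d k ((0 : V) : Fin d → ZMod (2 ^ k))) = 0 := by
      rw [pair_emb]
      simp
    rw [h, neg_zero, AddCircle.toCircle_zero, Circle.coe_one]
  map_add_eq_mul' a b := by
    rw [AddSubgroup.coe_add, map_add, pair_add, neg_add, AddCircle.toCircle_add, Circle.coe_mul]

theorem sum_sch {d k : ℕ} (V : AddSubgroup (Fin d → ZMod (2 ^ k))) [Fintype V] (l : Fin d → ℤ)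
    [Decidable (∀ a ∈ V, ∑ t, (l t : ZMod (2 ^ k)) * a t = 0)] :
    ∑ a, sch V l a =
      if (∀ a ∈ V, ∑ t, (l t : ZMod (2 ^ k)) * a t = 0) then (Fintype.card V : ℂ) else 0 := by
  classical
  have h : (∀ a ∈ V, ∑ t, (l t : ZMod (2 ^ k)) * a t = 0) ↔ sch V l = 0 := by
    constructor
    · intro h
      ext a
      change (AddCircle.toCircle (-pair l (emb d k a)) : ℂ) = 1
      rw [pair_emb, h a a.2, map_zero, neg_zero, AddCircle.toCircle_zero, Circle.coe_one]
    · intro h a ha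
      have h1 := DFunLike.congr_fun h (⟨a, ha⟩ : V)
      have h2 : (AddCircle.toCircle (-pair l (emb d k a)) : ℂ) = 1 := h1
      have h3 : AddCircle.toCircle (-pair l (emb d k a)) = AddCircle.toCircle (0 : UnitAddCircle) := by
        rw [AddCircle.toCircle_zero]
        exact Circle.ext (by rw [h2, Circle.coe_one])
      have h4 := AddCircle.injective_toCircle one_ne_zero h3
      rw [neg_eq_zero, pair_emb] at h4
      exact ZMod.toAddCircle_eq_zero.mp h4
  rw [AddChar.sum_eq_ite]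
  by_cases h1 : sch V l = 0
  · rw [if_pos h1, if_pos (h.mpr h1)]
  · rw [if_neg h1, if_neg (fun h2 => h1 (h.mp h2))]

/-- Away from zero the kernel is bounded by a constant smaller than one. -/
theorem exists_rho (δ : ℝ) (hδ : 0 < δ) :
    ∃ ρ : ℝ, 0 ≤ ρ ∧ ρ < 1 ∧ ∀ y : UnitAddCircle, δ ≤ ‖y‖ →
      ‖(1 + (AddCircle.toCircle y : ℂ)) / 2‖ ≤ ρ := by
  set S : Set UnitAddCircle := {y | δ ≤ ‖y‖} with hS
  have hSc : IsCompact S := (isClosed_le continuous_const continuous_norm).isCompact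
  by_cases hne : S.Nonempty
  · have hcont : Continuous (fun y : UnitAddCircle => ‖(1 + (AddCircle.toCircle y : ℂ)) / 2‖) := by
      have h1 : Continuous (fun y : UnitAddCircle => (AddCircle.toCircle y : ℂ)) :=
        continuous_subtype_val.comp AddCircle.continuous_toCircle
      fun_prop
    obtain ⟨y₀, hy₀, hmax⟩ := hSc.exists_isMaxOn hne hcont.continuousOn
    refine ⟨‖(1 + (AddCircle.toCircle y₀ : ℂ)) / 2‖, norm_nonneg _, ?_, fun y hy => hmax hy⟩
    set z : ℂ := (AddCircle.toCircle y₀ : ℂ) with hz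
    have hz1 : ‖z‖ = 1 := Circle.norm_coe _
    have hne1 : z ≠ 1 := by
      intro h
      have h2 : AddCircle.toCircle y₀ = AddCircle.toCircle (0 : UnitAddCircle) := by
        rw [AddCircle.toCircle_zero]
        exact Circle.ext (by rw [← hz, h, Circle.coe_one])
      have h3 := AddCircle.injective_toCircle one_ne_zero h2
      have h4 : δ ≤ ‖y₀‖ := hy₀
      rw [h3, norm_zero] at h4
      linarith
    by_contra hcon
    push Not at hcon
    apply hne1
    have h5 : ‖(1 + z) / 2‖ ^ 2 = (1 + z.re) / 2 := by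
      rw [norm_div, div_pow, Complex.sq_norm, Complex.normSq_apply]
      have h6 : z.re * z.re + z.im * z.im = 1 := by
        rw [← Complex.normSq_apply, Complex.normSq_eq_norm_sq, hz1, one_pow]
      simp only [Complex.add_re, Complex.one_re, Complex.add_im, Complex.one_im, zero_add]
      have h7 : ‖(2 : ℂ)‖ = 2 := by norm_num
      rw [h7]
      nlinarith
    have h6 : 1 ≤ z.re := by
      have h7 : 1 ≤ ‖(1 + z) / 2‖ ^ 2 := one_le_pow₀ hcon
      rw [h5] at h7
      linarith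
    have h7 : z.re * z.re + z.im * z.im = 1 := by
      rw [← Complex.normSq_apply, Complex.normSq_eq_norm_sq, hz1, one_pow]
    have h8 : z.re = 1 := by nlinarith [mul_self_nonneg z.im]
    have h9 : z.im = 0 := by
      have : z.im * z.im = 0 := by
        rw [h8] at h7
        linarith
      exact mul_self_eq_zero.mp this
    exact Complex.ext (by rw [h8, Complex.one_re]) (by rw [h9, Complex.one_im])
  · refine ⟨0, le_refl _, zero_lt_one, ?_⟩
    intro y hy
    exact absurd ⟨y, hy⟩ hne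

theorem norm_kernel_le_one (y : UnitAddCircle) :
    ‖(1 + (AddCircle.toCircle y : ℂ)) / 2‖ ≤ 1 := by
  rw [norm_div]
  have h1 : ‖(1 : ℂ) + (AddCircle.toCircle y : ℂ)‖ ≤ ‖(1 : ℂ)‖ + ‖(AddCircle.toCircle y : ℂ)‖ :=
    norm_add_le _ _
  rw [norm_one, Circle.norm_coe] at h1
  have h2 : ‖(2 : ℂ)‖ = 2 := by norm_num
  rw [h2]
  linarith

/-- The degree of the kernel. -/
theorem exists_degree (d : ℕ) (ρ : ℝ) (h0 : 0 ≤ ρ) (h1 : ρ < 1) :
    ∃ n : ℕ, ρ ^ (2 * n) < ((2 * n).choose n / 4 ^ n : ℝ) ^ d := by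
  have h2 : |ρ ^ 2| < 1 := by
    rw [abs_of_nonneg (by positivity)]
    exact pow_lt_one₀ h0 h1 (by norm_num)
  have h3 := tendsto_pow_const_mul_const_pow_of_abs_lt_one d h2
  have h4 : (0 : ℝ) < (1 / 2) ^ d := by positivity
  have h5 := (h3.eventually (gt_mem_nhds h4)).and (eventually_gt_atTop 0)
  obtain ⟨n, hn, hn0⟩ := h5.exists
  refine ⟨n, ?_⟩
  have hn0' : (0 : ℝ) < n := by exact_mod_cast hn0
  have h6 : (1 / (2 * (n : ℝ))) ≤ ((2 * n).choose n / 4 ^ n : ℝ) := by
    have h7 := Nat.four_pow_le_two_mul_self_mul_centralBinom n hn0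
    rw [Nat.centralBinom_eq_two_mul_choose] at h7
    rw [div_le_div_iff₀ (by positivity) (by positivity)]
    have h8 : ((4 ^ n : ℕ) : ℝ) ≤ ((2 * n * (2 * n).choose n : ℕ) : ℝ) := by exact_mod_cast h7
    push_cast at h8
    linarith
  refine lt_of_lt_of_le ?_ (pow_le_pow_left₀ (by positivity) h6 d)
  rw [pow_mul, one_div, inv_pow, mul_pow, mul_inv, ← inv_pow, ← one_div]
  have h9 : (0 : ℝ) < (n : ℝ) ^ d := by positivity
  rw [← div_eq_mul_inv, lt_div_iff₀ h9]
  linarith

/-- Points annihilated by all characters that annihilate `V k` for almost all `k` are limits of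
points of `V k`. -/
theorem dense_of_annihilator {d : ℕ} (V : ∀ k, AddSubgroup (Fin d → ZMod (2 ^ k)))
    (U : Ultrafilter ℕ) (x : Fin d → UnitAddCircle)
    (hx : ∀ l : Fin d → ℤ, (∀ᶠ k in U, ∀ a ∈ V k, ∑ t, (l t : ZMod (2 ^ k)) * a t = 0) →
      pair l x = 0) (δ : ℝ) (hδ : 0 < δ) :
    ∀ᶠ k in U, ∃ a ∈ V k, dist x (emb d k a) < δ := by
  classical
  obtain ⟨ρ, hρ0, hρ1, hρ⟩ := exists_rho δ hδ
  obtain ⟨n, hn⟩ := exists_degree d ρ hρ0 hρ1
  set F := Fintype.piFinset (fun _ : Fin d => Finset.range (2 * n + 1)) with hF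
  have hev : ∀ᶠ k in U, ∀ J ∈ F,
      (∀ a ∈ V k, ∑ t, ((((J t : ℤ) - n : ℤ)) : ZMod (2 ^ k)) * a t = 0) →
        pair (fun i => (J i : ℤ) - n) x = 0 := by
    rw [Filter.eventually_all_finset]
    intro J _
    by_cases h : ∀ᶠ k in U, ∀ a ∈ V k, ∑ t, ((((J t : ℤ) - n : ℤ)) : ZMod (2 ^ k)) * a t = 0
    · have h1 := hx (fun i => (J i : ℤ) - n) h
      exact Filter.Eventually.of_forall (fun k _ => h1)
    · rw [← Ultrafilter.eventually_not] at h
      filter_upwards [h] with k hk h2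
      exact absurd h2 hk
  filter_upwards [hev] with k hk
  have _ : Fintype (V k) := Fintype.ofFinite _
  set c : (Fin d → ℕ) → ℝ := fun J => ∏ i, ((2 * n).choose (J i) / 4 ^ n : ℝ) with hc
  have hc0 : ∀ J, 0 ≤ c J := fun J => Finset.prod_nonneg (fun i _ => by positivity)
  -- the sum of the kernel over `V k`
  have hsum : ((∑ a : V k, ker n (x - emb d k a) : ℝ) : ℂ) =
      ((Fintype.card (V k) * ∑ J ∈ F.filter (fun J =>
        ∀ a ∈ V k, ∑ t, ((((J t : ℤ) - n : ℤ)) : ZMod (2 ^ k)) * a t = 0), c J : ℝ) : ℂ) := by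
    rw [Complex.ofReal_sum]
    rw [Finset.sum_congr rfl (fun (a : V k) _ => kernel_prod n (x - emb d k a))]
    rw [Finset.sum_comm, Complex.ofReal_mul, Complex.ofReal_natCast, Complex.ofReal_sum]
    rw [Finset.sum_filter, Finset.mul_sum]
    apply Finset.sum_congr rfl
    intro J hJ
    have h1 : ∀ a : V k, (AddCircle.toCircle (pair (fun i => (J i : ℤ) - n) (x - emb d k a)) : ℂ) =
        (AddCircle.toCircle (pair (fun i => (J i : ℤ) - n) x) : ℂ) *
          sch (V k) (fun i => (J i : ℤ) - n) a := by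
      intro a
      rw [pair_sub, sub_eq_add_neg, AddCircle.toCircle_add, Circle.coe_mul]
      rfl
    rw [Finset.sum_congr rfl (fun (a : V k) _ => by rw [h1 a, ← mul_assoc])]
    rw [← Finset.mul_sum, sum_sch]
    by_cases h2 : ∀ a ∈ V k, ∑ t, ((((J t : ℤ) - n : ℤ)) : ZMod (2 ^ k)) * a t = 0
    · have h3 := hk J hJ h2
      rw [if_pos h2, if_pos h2, h3, AddCircle.toCircle_zero, Circle.coe_one, mul_one, mul_comm]
    · rw [if_neg h2, if_neg h2, mul_zero, mul_zero]
  have hsum' : (∑ a : V k, ker n (x - emb d k a) : ℝ) =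
      (Fintype.card (V k) * ∑ J ∈ F.filter (fun J =>
        ∀ a ∈ V k, ∑ t, ((((J t : ℤ) - n : ℤ)) : ZMod (2 ^ k)) * a t = 0), c J : ℝ) := by
    exact_mod_cast hsum
  have hlow : c (fun _ => n) ≤ ∑ J ∈ F.filter (fun J =>
        ∀ a ∈ V k, ∑ t, ((((J t : ℤ) - n : ℤ)) : ZMod (2 ^ k)) * a t = 0), c J := by
    apply Finset.single_le_sum (f := c) (fun J _ => hc0 J)
    rw [Finset.mem_filter]
    refine ⟨?_, ?_⟩
    · rw [hF, Fintype.mem_piFinset]
      intro i
      rw [Finset.mem_range]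
      omega
    · intro a _
      apply Finset.sum_eq_zero
      intro t _
      simp
  have hex : ∃ a : V k, c (fun _ => n) ≤ ker n (x - emb d k a) := by
    by_contra hcon
    push Not at hcon
    have h1 : (∑ a : V k, ker n (x - emb d k a) : ℝ) <
        ∑ _a : V k, c (fun _ => n) := by
      apply Finset.sum_lt_sum_of_nonempty
      · exact ⟨0, Finset.mem_univ _⟩
      · intro a _
        exact hcon a
    rw [hsum', Finset.sum_const, Finset.card_univ, nsmul_eq_mul] at h1
    have h2 : (0 : ℝ) ≤ Fintype.card (V k) := by positivity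
    have h3 := mul_le_mul_of_nonneg_left hlow h2
    linarith
  obtain ⟨a, ha⟩ := hex
  refine ⟨a, a.2, ?_⟩
  rw [dist_pi_lt_iff hδ]
  intro i
  by_contra hcon
  push Not at hcon
  rw [dist_eq_norm] at hcon
  have h1 := hρ ((x - emb d k a) i) hcon
  have h2 : ker n (x - emb d k a) ≤ ρ ^ (2 * n) := by
    unfold ker
    rw [← Finset.mul_prod_erase Finset.univ _ (Finset.mem_univ i)]
    have h4 : ∏ j ∈ Finset.univ.erase i,
        ‖(1 + (AddCircle.toCircle ((x - emb d k a) j) : ℂ)) / 2‖ ^ (2 * n) ≤ 1 :=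
      Finset.prod_le_one (fun j _ => by positivity)
        (fun j _ => pow_le_one₀ (norm_nonneg _) (norm_kernel_le_one _))
    have h5 : ‖(1 + (AddCircle.toCircle ((x - emb d k a) i) : ℂ)) / 2‖ ^ (2 * n) ≤ ρ ^ (2 * n) :=
      pow_le_pow_left₀ (norm_nonneg _) h1 _
    have h6 : (0 : ℝ) ≤ ‖(1 + (AddCircle.toCircle ((x - emb d k a) i) : ℂ)) / 2‖ ^ (2 * n) := by
      positivity
    calc _ ≤ ‖(1 + (AddCircle.toCircle ((x - emb d k a) i) : ℂ)) / 2‖ ^ (2 * n) * 1 :=
          mul_le_mul_of_nonneg_left h4 h6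
      _ ≤ ρ ^ (2 * n) := by rw [mul_one]; exact h5
  have h3 : c (fun _ => n) = ((2 * n).choose n / 4 ^ n : ℝ) ^ d := by
    rw [hc]
    simp only [Finset.prod_const, Finset.card_univ, Fintype.card_fin]
  rw [h3] at ha
  linarith

end Pool.Agent.Helper73.BG
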