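import Pool.Agent.Helper73.BG.Det
import Pool.Agent.Helper73.BG.Dense
import Pool.Agent.Helper30.BX.Lattice

/-!
# From the groups `(Z/2^k)^d` to the torus
-/

set_option autoImplicit false

open MeasureTheory Filter

namespace Pool.Agent.Helper73.BG

theorem volume_univ_torus (d : ℕ) : volume (Set.univ : Set (Fin d → UnitAddCircle)) = 1 := by
  rw [volume_pi, Measure.pi_univ]
  apply Finset.prod_eq_one
  intro i _
  exact UnitAddCircle.measure_univ

/-- Some translate of the lattice `(1/q)Z^d` meets a given set in its fair share of points. -/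
theorem exists_translate (d k : ℕ) (K : Set (Fin d → UnitAddCircle)) (hK : MeasurableSet K)
    (α : ℝ) (hα : α < (volume K).toReal) :
    ∃ (t : Fin d → UnitAddCircle) (B : Finset (Fin d → ZMod (2 ^ k))),
      (∀ a ∈ B, emb d k a + t ∈ K) ∧ α * (2 ^ k : ℝ) ^ d ≤ B.card := by
  classical
  by_contra hcon
  push Not at hcon
  have hcard : (Finset.univ : Finset (Fin d → ZMod (2 ^ k))).card = (2 ^ k) ^ d := by
    rw [Finset.card_univ, Fintype.card_fun, ZMod.card, Fintype.card_fin]
  have h1 : ∫⁻ t, ∑ a : Fin d → ZMod (2 ^ k), K.indicator (1 : (Fin d → UnitAddCircle) → ENNReal)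
      (emb d k a + t) = (((2 ^ k) ^ d : ℕ) : ENNReal) * volume K := by
    rw [lintegral_finsetSum]
    · have h2 : ∀ a : Fin d → ZMod (2 ^ k), ∫⁻ t, K.indicator
          (1 : (Fin d → UnitAddCircle) → ENNReal) (emb d k a + t) = volume K := by
        intro a
        rw [lintegral_add_left_eq_self (fun t => K.indicator
          (1 : (Fin d → UnitAddCircle) → ENNReal) t) (emb d k a)]
        exact lintegral_indicator_one hK
      rw [Finset.sum_congr rfl (fun a _ => h2 a), Finset.sum_const, hcard, nsmul_eq_mul]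
    · intro a _
      exact (measurable_one.indicator hK).comp (measurable_const_add _)
  have h2 : ∫⁻ t, ∑ a : Fin d → ZMod (2 ^ k), K.indicator (1 : (Fin d → UnitAddCircle) → ENNReal)
      (emb d k a + t) ≤ ENNReal.ofReal (α * (2 ^ k : ℝ) ^ d) := by
    have h3 : ∀ t : Fin d → UnitAddCircle, ∑ a : Fin d → ZMod (2 ^ k),
        K.indicator (1 : (Fin d → UnitAddCircle) → ENNReal) (emb d k a + t) ≤
        ENNReal.ofReal (α * (2 ^ k : ℝ) ^ d) := by
      intro t
      have h4 := hcon t (Finset.univ.filter (fun a => emb d k a + t ∈ K))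
        (fun a ha => (Finset.mem_filter.mp ha).2)
      have h5 : ∑ a : Fin d → ZMod (2 ^ k),
          K.indicator (1 : (Fin d → UnitAddCircle) → ENNReal) (emb d k a + t) =
          ((Finset.univ.filter (fun a : Fin d → ZMod (2 ^ k) => emb d k a + t ∈ K)).card :
            ENNReal) := by
        rw [Finset.card_filter]
        push_cast
        apply Finset.sum_congr rfl
        intro a _
        rw [Set.indicator_apply]
        rfl
      rw [h5, ← ENNReal.ofReal_natCast]
      exact ENNReal.ofReal_le_ofReal h4.le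
    calc _ ≤ ∫⁻ _t : Fin d → UnitAddCircle, ENNReal.ofReal (α * (2 ^ k : ℝ) ^ d) :=
          lintegral_mono h3
      _ = ENNReal.ofReal (α * (2 ^ k : ℝ) ^ d) := by
          rw [lintegral_const, volume_univ_torus, mul_one]
  rw [h1] at h2
  have h6 : (volume K) ≠ ⊤ := measure_ne_top _ _
  have h7 := ENNReal.toReal_mono ENNReal.ofReal_ne_top h2
  rw [ENNReal.toReal_mul, ENNReal.toReal_natCast] at h7
  have hN : (0 : ℝ) < (2 ^ k : ℝ) ^ d := by positivity
  push_cast at h7
  by_cases hα0 : 0 ≤ α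
  · rw [ENNReal.toReal_ofReal (by positivity)] at h7
    nlinarith
  · have h8 := hcon 0 ∅ (fun a ha => absurd ha (Finset.notMem_empty a))
    rw [Finset.card_empty, Nat.cast_zero] at h8
    push Not at hα0
    nlinarith

/-- Transfer from the groups `(Z/2^k)^d` (all `k`) to the torus. -/
theorem torus_limit_meas (d m : ℕ) (c α : ℝ)
    (hfin : ∀ k : ℕ, ∀ B : Finset (Fin d → ZMod (2 ^ k)), α * (2 ^ k : ℝ) ^ d ≤ B.card →
      ∃ V : AddSubgroup (Fin d → ZMod (2 ^ k)),
        Real.log ((V ⊔ (nsmulAddMonoidHom (α := Fin d → ZMod (2 ^ k)) 2).range).index : ℝ) ≤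
          c * Real.log 2 ∧
        ∀ v ∈ V, ∃ a b : Fin m → (Fin d → ZMod (2 ^ k)), (∀ l, a l ∈ B) ∧ (∀ l, b l ∈ B) ∧
          v = (∑ l, a l) - (∑ l, b l))
    (A : Set (Fin d → UnitAddCircle)) (hA : MeasurableSet A) (hα : α < (volume A).toReal) :
    ∃ (k : ℕ) (φ : (Fin k → UnitAddCircle) →+ (Fin d → UnitAddCircle)),
      Continuous φ ∧ Function.Injective φ ∧ (d : ℝ) - k ≤ c ∧
      Set.range φ ⊆ {y | ∃ a b : Fin m → (Fin d → UnitAddCircle),
        (∀ l, a l ∈ A) ∧ (∀ l, b l ∈ A) ∧ y = (∑ l, a l) - (∑ l, b l)} := by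
  classical
  obtain ⟨K, hKA, hKc, hKα⟩ : ∃ K : Set (Fin d → UnitAddCircle), K ⊆ A ∧ IsCompact K ∧
      α < (volume K).toReal := by
    by_cases hα0 : 0 ≤ α
    · have h1 : ENNReal.ofReal α < volume A :=
        (ENNReal.ofReal_lt_iff_lt_toReal hα0 (measure_ne_top _ _)).mpr hα
      obtain ⟨K, h2, h3, h4⟩ :=
        hA.exists_lt_isCompact_of_ne_top (measure_ne_top _ _) h1
      exact ⟨K, h2, h3, (ENNReal.ofReal_lt_iff_lt_toReal hα0 (measure_ne_top _ _)).mp h4⟩
    · refine ⟨∅, Set.empty_subset _, isCompact_empty, ?_⟩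
      rw [measure_empty, ENNReal.toReal_zero]
      exact not_le.mp hα0
  -- the set `m K - m K` is closed
  set S : Set (Fin d → UnitAddCircle) := {y | ∃ a b : Fin m → (Fin d → UnitAddCircle),
    (∀ l, a l ∈ K) ∧ (∀ l, b l ∈ K) ∧ y = (∑ l, a l) - (∑ l, b l)} with hS
  have hSc : IsClosed S := by
    have h1 : IsCompact (Set.univ.pi fun _ : Fin m => K) := isCompact_univ_pi fun _ => hKc
    have h2 : Continuous (fun p : (Fin m → (Fin d → UnitAddCircle)) ×
        (Fin m → (Fin d → UnitAddCircle)) => (∑ l, p.1 l) - (∑ l, p.2 l)) := by fun_prop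
    have h3 := ((h1.prod h1).image h2).isClosed
    have h4 : S = (fun p : (Fin m → (Fin d → UnitAddCircle)) ×
        (Fin m → (Fin d → UnitAddCircle)) => (∑ l, p.1 l) - (∑ l, p.2 l)) ''
          ((Set.univ.pi fun _ : Fin m => K) ×ˢ (Set.univ.pi fun _ : Fin m => K)) := by
      ext y
      constructor
      · rintro ⟨a, b, ha, hb, rfl⟩
        exact ⟨(a, b), ⟨fun l _ => ha l, fun l _ => hb l⟩, rfl⟩
      · rintro ⟨⟨a, b⟩, ⟨ha, hb⟩, rfl⟩
        exact ⟨a, b, fun l => ha l (Set.mem_univ _), fun l => hb l (Set.mem_univ _), rfl⟩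
    rw [h4]
    exact h3
  choose t B hB hcard using fun k => exists_translate d k K hKc.isClosed.measurableSet α hKα
  choose V hVc hV using fun k => hfin k (B k) (hcard k)
  set U : Ultrafilter ℕ := Filter.hyperfilter ℕ with hU
  set Lam : Set (Fin d → ℤ) :=
    {l | ∀ᶠ k in U, ∀ a ∈ V k, ∑ t, (l t : ZMod (2 ^ k)) * a t = 0} with hLam
  obtain ⟨r, v, hvL, hvi, hspan⟩ := Pool.Agent.Helper30.BX.exists_max_indep d Lam
  have hlog2 : 0 < Real.log 2 := Real.log_pos (by norm_num)
  -- the rank of the limit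
  have hrc : (r : ℝ) ≤ c := by
    by_contra hcon
    push Not at hcon
    obtain ⟨M, x, hM, hvx⟩ := exists_dual v hvi
    have h1 : ∀ᶠ k in U, ∀ i, ∀ a ∈ V k, ∑ t, (v i t : ZMod (2 ^ k)) * a t = 0 := by
      rw [Filter.eventually_all]
      exact fun i => hvL i
    have h2 : ∀ᶠ k : ℕ in U, |M ^ r| < 2 ^ k := by
      have h3 : ∀ᶠ k : ℕ in atTop, |M ^ r| < 2 ^ k := by
        filter_upwards [eventually_ge_atTop (|M ^ r|).toNat] with k hk
        have h4 : ((|M ^ r|).toNat : ℤ) = |M ^ r| := Int.toNat_of_nonneg (abs_nonneg _)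
        have h5 : k < 2 ^ k := Nat.lt_two_pow_self
        have h6 : (k : ℤ) < 2 ^ k := by exact_mod_cast h5
        have h7 : ((|M ^ r|).toNat : ℤ) ≤ k := by exact_mod_cast hk
        linarith
      exact Nat.hyperfilter_le_atTop h3
    obtain ⟨k, hk1, hk2⟩ := (h1.and h2).exists
    have h8 : (V k ⊔ (nsmulAddMonoidHom (α := Fin d → ZMod (2 ^ k)) 2).range).index < 2 ^ r := by
      by_contra h9
      push Not at h9
      have h10 : ((2 ^ r : ℕ) : ℝ) ≤
          ((V k ⊔ (nsmulAddMonoidHom (α := Fin d → ZMod (2 ^ k)) 2).range).index : ℝ) := by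
        exact_mod_cast h9
      have h11 := Real.log_le_log (by positivity) h10
      push_cast at h11
      rw [Real.log_pow] at h11
      have h12 := hVc k
      nlinarith
    have h13 := dvd_of_annihilate v x M hvx (V k) hk1 h8
    have h14 : M ^ r ≠ 0 := pow_ne_zero _ hM
    have h15 := Int.le_of_dvd (abs_pos.mpr h14) ((dvd_abs _ _).mpr h13)
    linarith
  obtain ⟨kk, Mat, P, hd, hP, hvM⟩ := Pool.Agent.Helper30.BX.exists_matrices d r v
  refine ⟨kk, Pool.Agent.Helper30.BX.torHom Mat, Pool.Agent.Helper30.BX.torHom_continuous Mat,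
    Pool.Agent.Helper30.BX.torHom_injective Mat P hP, ?_, ?_⟩
  · have h1 : (d : ℝ) ≤ kk + r := by exact_mod_cast hd
    linarith
  · rintro y ⟨w, rfl⟩
    set y := Pool.Agent.Helper30.BX.torHom Mat w with hy
    have hann : ∀ l : Fin d → ℤ, (∀ᶠ k in U, ∀ a ∈ V k, ∑ t, (l t : ZMod (2 ^ k)) * a t = 0) →
        pair l y = 0 := by
      intro l hl
      obtain ⟨e, n, he, hen⟩ := hspan l hl
      have h1 : ∀ j, ∑ i, l i * Mat i j = 0 := by
        intro j
        have h2 : e * ∑ i, l i * Mat i j = 0 := by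
          calc e * ∑ i, l i * Mat i j = ∑ i, (e • l) i * Mat i j := by
                rw [Finset.mul_sum]
                apply Finset.sum_congr rfl
                intro i _
                rw [Pi.smul_apply, smul_eq_mul, mul_assoc]
            _ = ∑ i, (∑ s, n s • v s) i * Mat i j := by rw [hen]
            _ = ∑ s, n s * ∑ i, v s i * Mat i j := by
                simp_rw [Finset.sum_apply, Pi.smul_apply, smul_eq_mul, Finset.sum_mul,
                  Finset.mul_sum]
                rw [Finset.sum_comm]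
                apply Finset.sum_congr rfl
                intro s _
                apply Finset.sum_congr rfl
                intro i _
                ring
            _ = 0 := by
                apply Finset.sum_eq_zero
                intro s _
                rw [hvM, mul_zero]
        exact (mul_eq_zero.mp h2).resolve_left he
      unfold pair
      have h3 : ∀ i, l i • y i = ∑ j, (l i * Mat i j) • w j := by
        intro i
        change l i • ∑ j, Mat i j • w j = _
        rw [Finset.smul_sum]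
        apply Finset.sum_congr rfl
        intro j _
        rw [mul_smul]
      rw [Finset.sum_congr rfl (fun i _ => h3 i), Finset.sum_comm]
      apply Finset.sum_eq_zero
      intro j _
      rw [← Finset.sum_smul, h1, zero_smul]
    have hyS : y ∈ S := by
      rw [← hSc.closure_eq, Metric.mem_closure_iff]
      intro δ hδ
      obtain ⟨k, a, ha, hdist⟩ := (dense_of_annihilator V U y hann δ hδ).exists
      obtain ⟨p, q, hp, hq, hpq⟩ := hV k a ha
      refine ⟨emb d k a, ⟨fun l => emb d k (p l) + t k, fun l => emb d k (q l) + t k,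
        fun l => hB k _ (hp l), fun l => hB k _ (hq l), ?_⟩, hdist⟩
      rw [Finset.sum_add_distrib, Finset.sum_add_distrib]
      have h4 : emb d k a = ∑ l, emb d k (p l) - ∑ l, emb d k (q l) := by
        rw [hpq, map_sub, map_sum, map_sum]
      rw [h4]
      abel
    obtain ⟨a, b, ha, hb, hab⟩ := hyS
    exact ⟨a, b, fun l => hKA (ha l), fun l => hKA (hb l), hab⟩

/-- The same for open sets. -/
theorem torus_limit (d m : ℕ) (_hm : 0 < m) (c α : ℝ)
    (hfin : ∀ k : ℕ, ∀ B : Finset (Fin d → ZMod (2 ^ k)), α * (2 ^ k : ℝ) ^ d ≤ B.card →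
      ∃ V : AddSubgroup (Fin d → ZMod (2 ^ k)),
        Real.log ((V ⊔ (nsmulAddMonoidHom (α := Fin d → ZMod (2 ^ k)) 2).range).index : ℝ) ≤
          c * Real.log 2 ∧
        ∀ v ∈ V, ∃ a b : Fin m → (Fin d → ZMod (2 ^ k)), (∀ l, a l ∈ B) ∧ (∀ l, b l ∈ B) ∧
          v = (∑ l, a l) - (∑ l, b l))
    (A : Set (Fin d → UnitAddCircle)) (hA : IsOpen A) (hα : α < (volume A).toReal) :
    ∃ (k : ℕ) (φ : (Fin k → UnitAddCircle) →+ (Fin d → UnitAddCircle)),
      Continuous φ ∧ Function.Injective φ ∧ (d : ℝ) - k ≤ c ∧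
      Set.range φ ⊆ {y | ∃ a b : Fin m → (Fin d → UnitAddCircle),
        (∀ l, a l ∈ A) ∧ (∀ l, b l ∈ A) ∧ y = (∑ l, a l) - (∑ l, b l)} :=
  torus_limit_meas d m c α hfin A hA.measurableSet hα

end Pool.Agent.Helper73.BG
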