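import Pool.Agent.Helper73.BG.MFold
import Pool.Agent.Helper73.BG.Limit

/-!
# From a power law for the contraction constant to subtori in `(m+1) A - (m+1) A`
-/

set_option autoImplicit false

open MeasureTheory

namespace Pool.Agent.Helper73.BG

open Pool.Agent.Helper15.BP

/-- The finite theorem for `m + 1` summands. -/
theorem finite_of_contrRM (m : ℕ) (s C : ℝ) (hC : 1 ≤ C) (hs : 0 < s)
    (h : ∀ κ : ℝ, 0 < κ → κ ≤ 1 → ContrRM m κ (C * κ ^ s))
    (G : Type) [AddCommGroup G] [Finite G] (hG : ∃ k : ℕ, ∀ x : G, (2 ^ k : ℕ) • x = 0)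
    (A : Finset G) (hA : A.Nonempty) (E : ℝ) (hE : 1 ≤ E)
    (hAE : Real.log (Nat.card G) - Real.log A.card ≤ E) :
    ∃ V : AddSubgroup G,
      Real.log ((V ⊔ dbl G).index : ℝ) ≤ (2 * C) ^ (1 / s) * E ^ (1 + 1 / s) ∧
      ∀ v ∈ V, ∃ a b : Fin (m + 1) → G, (∀ l, a l ∈ A) ∧ (∀ l, b l ∈ A) ∧
        v = (∑ l, a l) - (∑ l, b l) := by
  classical
  have hCE : 1 ≤ 2 * C * E := by nlinarith
  have hCE0 : 0 < 2 * C * E := by linarith
  set κ : ℝ := (2 * C * E) ^ (-(1 / s)) with hκ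
  have hκ0 : 0 < κ := Real.rpow_pos_of_pos hCE0 _
  have hκ1 : κ ≤ 1 := by
    rw [hκ]
    exact Real.rpow_le_one_of_one_le_of_nonpos hCE (by
      have : 0 < 1 / s := by positivity
      linarith)
  have hκs : κ ^ s = (2 * C * E)⁻¹ := by
    rw [hκ, ← Real.rpow_mul hCE0.le]
    have h1 : -(1 / s) * s = -1 := by
      field_simp
    rw [h1, Real.rpow_neg_one]
  obtain ⟨V, x, B, hB1, hB2, hB3⟩ := Pool.Agent.Helper25.BP.reg A hA κ hκ0
  have hidx : 0 ≤ Real.log ((V ⊔ dbl G).index : ℝ) := Real.log_natCast_nonneg _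
  have hBD : B.D ⊥ ≤ E := by
    have h1 : 0 ≤ κ * Real.log ((V ⊔ dbl G).index : ℝ) := mul_nonneg hκ0.le hidx
    linarith
  have hBD0 : 0 ≤ B.D ⊥ := B.D_nonneg ⊥
  refine ⟨V, ?_, ?_⟩
  · have h1 : κ * Real.log ((V ⊔ dbl G).index : ℝ) ≤ E := by linarith
    have h2 : Real.log ((V ⊔ dbl G).index : ℝ) ≤ E / κ := by
      rw [le_div_iff₀ hκ0, mul_comm]
      exact h1
    refine h2.trans (le_of_eq ?_)
    have hE0 : 0 < E := by linarith
    rw [hκ, div_eq_mul_inv, ← Real.rpow_neg hCE0.le, neg_neg,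
      Real.mul_rpow (by linarith) hE0.le, Real.rpow_add hE0, Real.rpow_one]
    ring
  · have hV : ∃ k : ℕ, ∀ v : V, (2 ^ k : ℕ) • v = 0 := by
      obtain ⟨k, hk⟩ := hG
      refine ⟨k, fun v => ?_⟩
      apply Subtype.ext
      rw [AddSubgroup.coe_nsmul]
      exact hk v
    have h1 := h κ hκ0 hκ1 V hV B hB1
    have h2 : (B.mF m).D ⊥ < Real.log 2 := by
      refine lt_of_le_of_lt h1 ?_
      rw [hκs]
      have h3 : C * (2 * C * E)⁻¹ * B.D ⊥ ≤ C * (2 * C * E)⁻¹ * E :=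
        mul_le_mul_of_nonneg_left hBD (by positivity)
      have h4 : C * (2 * C * E)⁻¹ * E = 1 / 2 := by
        field_simp
      rw [h4] at h3
      have h5 := Real.log_two_gt_d9
      linarith
    exact support_diff_m (A : Set G) V x B hB3 m h2

/-- The theorem on the torus for `m + 1` summands, measurable sets. -/
theorem torus_of_contrM_meas (m : ℕ) (s C : ℝ) (hC : 1 ≤ C) (hs : 0 < s)
    (h : ∀ κ : ℝ, 0 < κ → κ ≤ 1 → ContrM m κ (C * κ ^ s))
    (d : ℕ) (A : Set (Fin d → UnitAddCircle)) (hA : MeasurableSet A) (hpos : 0 < volume A) :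
    ∃ (k : ℕ) (φ : (Fin k → UnitAddCircle) →+ (Fin d → UnitAddCircle)),
      Continuous φ ∧ Function.Injective φ ∧
      (d : ℝ) - k ≤ ((2 * C) ^ (1 / s) * 2 ^ (2 + 1 / s)) *
        (1 + Real.log (1 / (volume A).toReal)) ^ (1 + 1 / s) ∧
      Set.range φ ⊆ {y | ∃ a b : Fin (m + 1) → (Fin d → UnitAddCircle),
        (∀ l, a l ∈ A) ∧ (∀ l, b l ∈ A) ∧ y = (∑ l, a l) - (∑ l, b l)} := by
  classical
  set μ : ℝ := (volume A).toReal with hμ
  have hfin : volume A ≠ ⊤ := measure_ne_top _ _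
  have hμ0 : 0 < μ := ENNReal.toReal_pos hpos.ne' hfin
  have hμ1 : μ ≤ 1 := by
    have h1 : volume A ≤ 1 := by
      rw [← volume_univ_torus d]
      exact measure_mono (Set.subset_univ _)
    have h2 := ENNReal.toReal_mono ENNReal.one_ne_top h1
    rwa [ENNReal.toReal_one] at h2
  set L : ℝ := Real.log (1 / μ) with hL
  have hL0 : 0 ≤ L := Real.log_nonneg (by rw [le_div_iff₀ hμ0]; linarith)
  set E : ℝ := 2 * (1 + L) with hE
  have hE1 : 1 ≤ E := by linarith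
  have hlog2 := Real.log_two_lt_d9
  have hlog2' := Real.log_two_gt_d9
  set c : ℝ := ((2 * C) ^ (1 / s) * E ^ (1 + 1 / s)) / Real.log 2 with hc
  have key := torus_limit_meas d (m + 1) c (μ / 2) (by
    intro k B hB
    have hN : (0 : ℝ) < (2 ^ k : ℝ) ^ d := by positivity
    have hBpos : (0 : ℝ) < B.card := lt_of_lt_of_le (by positivity) hB
    have hBne : B.Nonempty := by
      rw [← Finset.card_pos]
      exact_mod_cast hBpos
    have hcard : (Nat.card (Fin d → ZMod (2 ^ k)) : ℝ) = (2 ^ k : ℝ) ^ d := by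
      rw [Nat.card_fun, Nat.card_zmod, Nat.card_fin]
      push_cast
      rfl
    obtain ⟨V, hV1, hV2⟩ := finite_of_contrRM m s C hC hs
      (fun κ h0 h1 => contrRM_of_contrM m κ _ (h κ h0 h1)) (Fin d → ZMod (2 ^ k))
      ⟨k, fun x => by
        funext t
        rw [Pi.smul_apply, nsmul_eq_mul, ZMod.natCast_self, zero_mul, Pi.zero_apply]⟩
      B hBne E hE1 (by
        rw [hcard]
        have h1 := Real.log_le_log (by positivity) hB
        rw [Real.log_mul (by positivity) hN.ne', Real.log_div hμ0.ne' (by norm_num)] at h1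
        have h2 : L = -Real.log μ := by
          rw [hL, Real.log_div one_ne_zero hμ0.ne', Real.log_one, zero_sub]
        linarith)
    refine ⟨V, ?_, hV2⟩
    rw [hc, div_mul_cancel₀ _ (by linarith)]
    exact hV1) A hA (by rw [← hμ]; linarith)
  obtain ⟨k, φ, h1, h2, h3, h4⟩ := key
  refine ⟨k, φ, h1, h2, h3.trans ?_, h4⟩
  have hp : 0 < (2 * C) ^ (1 / s) := Real.rpow_pos_of_pos (by linarith) _
  have hE2 : E ^ (1 + 1 / s) = 2 ^ (1 + 1 / s) * (1 + L) ^ (1 + 1 / s) := by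
    rw [hE, Real.mul_rpow (by norm_num) (by linarith)]
  have h2s : (2 : ℝ) ^ (2 + 1 / s) = 2 * 2 ^ (1 + 1 / s) := by
    rw [show (2 : ℝ) + 1 / s = 1 + (1 + 1 / s) by ring, Real.rpow_add (by norm_num),
      Real.rpow_one]
  have hq : 0 < (2 : ℝ) ^ (1 + 1 / s) := Real.rpow_pos_of_pos (by norm_num) _
  have hr : 0 ≤ (1 + L) ^ (1 + 1 / s) := Real.rpow_nonneg (by linarith) _
  rw [hc, hE2, h2s, div_le_iff₀ (by linarith)]
  have h5 : 0 ≤ (2 * C) ^ (1 / s) * (2 ^ (1 + 1 / s) * (1 + L) ^ (1 + 1 / s)) := by positivity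
  nlinarith

/-- The theorem on the torus for `m + 1` summands, open sets. -/
theorem torus_of_contrM (m : ℕ) (s C : ℝ) (hC : 1 ≤ C) (hs : 0 < s)
    (h : ∀ κ : ℝ, 0 < κ → κ ≤ 1 → ContrM m κ (C * κ ^ s))
    (d : ℕ) (A : Set (Fin d → UnitAddCircle)) (hA : IsOpen A) (hpos : 0 < volume A) :
    ∃ (k : ℕ) (φ : (Fin k → UnitAddCircle) →+ (Fin d → UnitAddCircle)),
      Continuous φ ∧ Function.Injective φ ∧
      (d : ℝ) - k ≤ ((2 * C) ^ (1 / s) * 2 ^ (2 + 1 / s)) *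
        (1 + Real.log (1 / (volume A).toReal)) ^ (1 + 1 / s) ∧
      Set.range φ ⊆ {y | ∃ a b : Fin (m + 1) → (Fin d → UnitAddCircle),
        (∀ l, a l ∈ A) ∧ (∀ l, b l ∈ A) ∧ y = (∑ l, a l) - (∑ l, b l)} :=
  torus_of_contrM_meas m s C hC hs h d A hA.measurableSet hpos

end Pool.Agent.Helper73.BG
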