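import Pool.Agent.Helper92.BQ.Pow
import Pool.Agent.Helper92.BQ.Rec
import Pool.Agent.Helper45.BQ.EnSmall
import Pool.Agent.Helper25.P2.MSum
import Pool.Agent.Helper26.P2.LemL
import Pool.Agent.Helper88.P2.LemE
import Pool.Agent.Helper94.P2.Bridge
import Pool.Agent.Helper94.P2.EnChain
import Pool.Agent.Helper73.BG.Final

/-!
# Phase 2: the unconditional statements

`ufin_holds : UFIN`, `contrM_holds` and the torus theorem `torus_mfold`.
-/

set_option autoImplicit false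

namespace Pool.Agent.Helper73.BG

open MeasureTheory Pool.Agent.Helper15.BP Pool.Agent.Helper92.BQ

theorem near_holds : ∀ k e : ℝ, 0 < k → 0 < e → 0 < U k →
    ∃ (G : Type) (_ : AddCommGroup G) (_ : Finite G)
      (A : Fam G), (∀ x : G, x + x = 0) ∧ (∀ K : AddSubgroup G, A.D K ≤ k * Real.log K.index) ∧
      0 < Real.log (Nat.card G) ∧ (1 - e) * (U k * Real.log (Nat.card G)) ≤ (A.add A).D ⊥ := by
  intro k e hk he hU
  set e' : ℝ := min e 1 with he'
  have he0 : 0 < e' := lt_min he one_pos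
  have he1 : e' ≤ 1 := min_le_right _ _
  have h1 : 0 ≤ (1 - e') * U k := mul_nonneg (by linarith) hU.le
  have h2 : (1 - e') * U k < U k := by nlinarith
  obtain ⟨G, i1, i2, h3, A, h4, h5⟩ := Pool.Agent.Helper26.P2.U_near h1 h2
  have hn0 : 0 ≤ Real.log (Nat.card G) := Real.log_natCast_nonneg _
  have hn : 0 < Real.log (Nat.card G) := by
    rcases hn0.eq_or_lt with h | h
    · exfalso
      have h6 : (A.add A).D ⊥ ≤ A.D ⊥ := Fam.D_add_le A A ⊥
      have h7 := h4 ⊥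
      rw [AddSubgroup.index_bot, ← h, mul_zero] at h7
      rw [← h, mul_zero] at h5
      linarith
    · exact h
  refine ⟨G, i1, i2, A, h3, h4, hn, ?_⟩
  have h6 : (1 - e) * (U k * Real.log (Nat.card G)) ≤
      (1 - e') * (U k * Real.log (Nat.card G)) :=
    mul_le_mul_of_nonneg_right (by linarith [min_le_left e 1]) (by positivity)
  linarith

theorem ufin_holds : UFIN := by
  have hU0 := Pool.Agent.Helper26.P2.U_nonneg
  have hUk : ∀ k : ℝ, 0 ≤ k → U k ≤ k := fun k h => Pool.Agent.Helper26.P2.U_le h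
  have hL := Pool.Agent.Helper26.P2.leml_holds
  exact ufin (recu hL (fslope hL hU0 hUk) Pool.Agent.Helper94.P2.ncopy_holds
      (Pool.Agent.Helper45.BQ.ensmall_of Pool.Agent.Helper94.P2.enchain_holds) hU0 hUk near_holds)
    Pool.Agent.Helper88.P2.lemE (fun k _ => Pool.Agent.Helper26.P2.U_le_one k) hU0

theorem contrM_holds (m : ℕ) (hm : 1 ≤ m) (ε : ℝ) (hε : 0 < ε) :
    ∃ C : ℝ, 1 ≤ C ∧ ∀ k : ℝ, 0 < k → k ≤ 1 → ContrM m k (C * k ^ ((m : ℝ) - ε)) :=
  contrM_of_ufin ufin_holds m hm ε hε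

/-- the torus theorem with `m` summands, exponent `m / (m - 1) + ε`, measurable sets -/
theorem torus_mfold_meas (m : ℕ) (hm : 2 ≤ m) (ε : ℝ) (hε : 0 < ε) :
    ∃ C : ℝ, 0 < C ∧ ∀ (d : ℕ) (A : Set (Fin d → UnitAddCircle)), MeasurableSet A → 0 < volume A →
      ∃ (k : ℕ) (φ : (Fin k → UnitAddCircle) →+ (Fin d → UnitAddCircle)),
        Continuous φ ∧ Function.Injective φ ∧
        (d : ℝ) - k ≤
          C * (1 + Real.log (1 / (volume A).toReal)) ^ ((m : ℝ) / ((m : ℝ) - 1) + ε) ∧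
        Set.range φ ⊆ {y | ∃ a b : Fin m → (Fin d → UnitAddCircle),
          (∀ l, a l ∈ A) ∧ (∀ l, b l ∈ A) ∧ y = (∑ l, a l) - (∑ l, b l)} := by
  obtain ⟨n, rfl⟩ : ∃ n, m = n + 1 := ⟨m - 1, by omega⟩
  have hn : 1 ≤ n := by omega
  have hnR : (1 : ℝ) ≤ n := by exact_mod_cast hn
  have hn0 : (0 : ℝ) < n := by linarith
  -- choose the loss in the contraction
  set η : ℝ := min (1 / 2) (ε / 2) with hη
  have hη0 : 0 < η := lt_min (by norm_num) (by linarith)
  have hη1 : η ≤ 1 / 2 := min_le_left _ _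
  have hη2 : η ≤ ε / 2 := min_le_right _ _
  have hs : 0 < (n : ℝ) - η := by linarith
  obtain ⟨C, hC1, hC⟩ := contrM_holds n hn η hη0
  refine ⟨(2 * C) ^ (1 / ((n : ℝ) - η)) * 2 ^ (2 + 1 / ((n : ℝ) - η)), by positivity,
    fun d A hA hpos => ?_⟩
  obtain ⟨k, φ, h1, h2, h3, h4⟩ := torus_of_contrM_meas n ((n : ℝ) - η) C hC1 hs hC d A hA hpos
  refine ⟨k, φ, h1, h2, h3.trans ?_, h4⟩
  refine mul_le_mul_of_nonneg_left ?_ (by positivity)
  have hL : 0 ≤ Real.log (1 / (volume A).toReal) := by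
    have h5 : volume A ≤ 1 := by
      rw [← volume_univ_torus d]
      exact measure_mono (Set.subset_univ _)
    have h6 := ENNReal.toReal_mono ENNReal.one_ne_top h5
    rw [ENNReal.toReal_one] at h6
    have h7 : 0 < (volume A).toReal := ENNReal.toReal_pos hpos.ne' (measure_ne_top _ _)
    exact Real.log_nonneg (by rw [le_div_iff₀ h7]; linarith)
  refine Real.rpow_le_rpow_of_exponent_le (by linarith) ?_
  have e1 : ((n + 1 : ℕ) : ℝ) / (((n + 1 : ℕ) : ℝ) - 1) = 1 + 1 / n := by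
    push_cast
    rw [add_sub_cancel_right]
    field_simp
  rw [e1]
  have e2 : 1 / ((n : ℝ) - η) ≤ 1 / n + ε := by
    rw [div_add' _ _ _ hn0.ne', div_le_div_iff₀ hs hn0]
    have e3 : η ≤ ε * n * (n - η) := by
      have e4 : (1 / 2 : ℝ) ≤ n * (n - η) := by nlinarith
      nlinarith
    nlinarith
  linarith

/-- the torus theorem with `m` summands, exponent `m / (m - 1) + ε`, open sets -/
theorem torus_mfold (m : ℕ) (hm : 2 ≤ m) (ε : ℝ) (hε : 0 < ε) :
    ∃ C : ℝ, 0 < C ∧ ∀ (d : ℕ) (A : Set (Fin d → UnitAddCircle)), IsOpen A → 0 < volume A →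
      ∃ (k : ℕ) (φ : (Fin k → UnitAddCircle) →+ (Fin d → UnitAddCircle)),
        Continuous φ ∧ Function.Injective φ ∧
        (d : ℝ) - k ≤
          C * (1 + Real.log (1 / (volume A).toReal)) ^ ((m : ℝ) / ((m : ℝ) - 1) + ε) ∧
        Set.range φ ⊆ {y | ∃ a b : Fin m → (Fin d → UnitAddCircle),
          (∀ l, a l ∈ A) ∧ (∀ l, b l ∈ A) ∧ y = (∑ l, a l) - (∑ l, b l)} := by
  obtain ⟨C, hC, h⟩ := torus_mfold_meas m hm ε hε
  exact ⟨C, hC, fun d A hA hpos => h d A hA.measurableSet hpos⟩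

end Pool.Agent.Helper73.BG
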