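import Mathlib

/-!
# Independent integer vectors annihilating a subgroup of large rank
-/

set_option autoImplicit false

namespace Pool.Agent.Helper73.BG

open Matrix

/-- A scaled dual family of independent integer vectors. -/
theorem exists_dual {d r : ℕ} (v : Fin r → Fin d → ℤ) (hv : LinearIndependent ℤ v) :
    ∃ (M : ℤ) (x : Fin r → Fin d → ℤ), M ≠ 0 ∧
      ∀ i j, ∑ t, v i t * x j t = if i = j then M else 0 := by
  classical
  set L : Matrix (Fin r) (Fin d) ℤ := Matrix.of v with hL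
  have hdet : (L * Lᵀ).det ≠ 0 := by
    intro h0
    obtain ⟨w, hw, hw0⟩ := Matrix.exists_mulVec_eq_zero_iff.mpr h0
    have h1 : (Lᵀ *ᵥ w) ⬝ᵥ (Lᵀ *ᵥ w) = 0 := by
      have h2 : w ⬝ᵥ ((L * Lᵀ) *ᵥ w) = 0 := by
        rw [hw0, dotProduct_zero]
      rw [← Matrix.mulVec_mulVec, Matrix.dotProduct_mulVec, ← Matrix.mulVec_transpose] at h2
      exact h2
    have h3 : Lᵀ *ᵥ w = 0 := dotProduct_self_eq_zero.mp h1
    apply hw
    have h4 : ∑ i, w i • v i = 0 := by
      funext t
      have h5 := congrFun h3 t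
      simp only [Matrix.mulVec, dotProduct, Matrix.transpose_apply, hL, Matrix.of_apply,
        Pi.zero_apply] at h5
      simp only [Finset.sum_apply, Pi.smul_apply, smul_eq_mul, Pi.zero_apply]
      rw [← h5]
      apply Finset.sum_congr rfl
      intro i _
      ring
    have h6 := Fintype.linearIndependent_iff.mp hv w h4
    funext i
    exact h6 i
  refine ⟨(L * Lᵀ).det, fun j t => (Lᵀ * (L * Lᵀ).adjugate) t j, hdet, ?_⟩
  intro i j
  have h1 : L * (Lᵀ * (L * Lᵀ).adjugate) = (L * Lᵀ).det • 1 := by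
    rw [← Matrix.mul_assoc, Matrix.mul_adjugate]
  have h2 := congrFun (congrFun h1 i) j
  rw [Matrix.mul_apply] at h2
  rw [Matrix.smul_apply, Matrix.one_apply] at h2
  have h3 : ∑ t, v i t * (Lᵀ * (L * Lᵀ).adjugate) t j =
      ∑ t, L i t * (Lᵀ * (L * Lᵀ).adjugate) t j := rfl
  rw [h3, h2]
  split_ifs <;> simp

/-- A scalar matrix factoring through a smaller free module has nilpotent entry. -/
theorem pow_eq_zero_of_factor {R : Type*} [CommRing R] {r s : ℕ} (hs : s < r) (M : R)
    (A : Matrix (Fin r) (Fin s) R) (B : Matrix (Fin s) (Fin r) R)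
    (h : A * B = Matrix.scalar (Fin r) M) : M ^ r = 0 := by
  classical
  set A' : Matrix (Fin r) (Fin r) R := fun i j => if hj : (j : ℕ) < s then A i ⟨j, hj⟩ else 0
    with hA'
  set B' : Matrix (Fin r) (Fin r) R := fun i j => if hi : (i : ℕ) < s then B ⟨i, hi⟩ j else 0
    with hB'
  have h1 : A' * B' = A * B := by
    ext i j
    rw [Matrix.mul_apply, Matrix.mul_apply]
    have h2 : ∀ t : Fin r, A' i t * B' t j =
        if ht : (t : ℕ) < s then A i ⟨t, ht⟩ * B ⟨t, ht⟩ j else 0 := by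
      intro t
      simp only [hA', hB']
      split_ifs <;> simp
    rw [Finset.sum_congr rfl (fun t _ => h2 t)]
    rw [← Finset.sum_subset (Finset.subset_univ (Finset.univ.map (Fin.castLEEmb hs.le)))]
    · rw [Finset.sum_map]
      apply Finset.sum_congr rfl
      intro t _
      have ht : ((Fin.castLEEmb hs.le t : Fin r) : ℕ) < s := t.2
      rw [dif_pos ht]
      rfl
    · intro t _ ht
      rw [dif_neg]
      intro hts
      apply ht
      rw [Finset.mem_map]
      exact ⟨⟨t, hts⟩, Finset.mem_univ _, rfl⟩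
  have h2 : (A' * B').det = M ^ r := by
    rw [h1, h]
    simp
  rw [← h2, Matrix.det_mul]
  have h3 : A'.det = 0 := by
    apply Matrix.det_eq_zero_of_column_eq_zero ⟨s, hs⟩
    intro i
    simp [hA']
  rw [h3, zero_mul]

/-- If `W + 2 G = G` and `2 ^ k G = 0` then `W = G`. -/
theorem eq_top_of_sup_two {G : Type*} [AddCommGroup G] (W : AddSubgroup G) (k : ℕ)
    (hk : ∀ x : G, (2 ^ k) • x = 0) (h : ∀ x : G, ∃ w ∈ W, ∃ y : G, x = w + 2 • y) (x : G) :
    x ∈ W := by
  have key : ∀ j : ℕ, ∀ x : G, ∃ w ∈ W, ∃ y : G, x = w + (2 ^ j) • y := by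
    intro j
    induction j with
    | zero => exact fun x => ⟨0, W.zero_mem, x, by simp⟩
    | succ j ih =>
      intro x
      obtain ⟨w, hw, y, rfl⟩ := ih x
      obtain ⟨w', hw', y', rfl⟩ := h y
      refine ⟨w + (2 ^ j) • w', W.add_mem hw (W.nsmul_mem hw' _), y', ?_⟩
      rw [smul_add, pow_succ, mul_smul, add_assoc]
  obtain ⟨w, hw, y, rfl⟩ := key k x
  rw [hk, add_zero]
  exact hw

/-- Generators modulo a subgroup: their number is at most `log2 [G : V + 2 G]`. -/
theorem exists_generators {G : Type*} [AddCommGroup G] [Finite G] (V : AddSubgroup G) (k : ℕ)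
    (hk : ∀ x : G, (2 ^ k) • x = 0) :
    ∃ (s : ℕ) (g : Fin s → G), 2 ^ s = (V ⊔ (nsmulAddMonoidHom (α := G) 2).range).index ∧
      ∀ x : G, ∃ w ∈ V, ∃ n : Fin s → ℤ, x = w + ∑ i, n i • g i := by
  classical
  set T := V ⊔ (nsmulAddMonoidHom (α := G) 2).range with hT
  have hmod : ∀ x : G ⧸ T, 2 • x = 0 := by
    intro x
    obtain ⟨y, rfl⟩ := QuotientAddGroup.mk_surjective x
    rw [← QuotientAddGroup.mk_nsmul]
    rw [QuotientAddGroup.eq_zero_iff]
    exact AddSubgroup.mem_sup_right ⟨y, rfl⟩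
  let _ : Module (ZMod 2) (G ⧸ T) := AddCommGroup.zmodModule hmod
  have _ : Module.Finite (ZMod 2) (G ⧸ T) := Module.Finite.of_finite
  set b := Module.finBasis (ZMod 2) (G ⧸ T) with hb
  choose g hg using fun i => QuotientAddGroup.mk_surjective (b i)
  have hcard : Nat.card (G ⧸ T) = 2 ^ Module.finrank (ZMod 2) (G ⧸ T) := by
    have _ : Fintype (G ⧸ T) := Fintype.ofFinite _
    have h1 := Module.card_eq_pow_finrank (K := ZMod 2) (V := G ⧸ T)
    rw [Nat.card_eq_fintype_card, h1, ZMod.card]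
  refine ⟨Module.finrank (ZMod 2) (G ⧸ T), g, ?_, ?_⟩
  · rw [AddSubgroup.index, hcard]
  · set W : AddSubgroup G := {
      carrier := {x | ∃ w ∈ V, ∃ n : Fin (Module.finrank (ZMod 2) (G ⧸ T)) → ℤ,
        x = w + ∑ i, n i • g i}
      zero_mem' := ⟨0, V.zero_mem, 0, by simp⟩
      add_mem' := by
        rintro x y ⟨w, hw, n, rfl⟩ ⟨w', hw', n', rfl⟩
        refine ⟨w + w', V.add_mem hw hw', n + n', ?_⟩
        simp only [Pi.add_apply, add_smul, Finset.sum_add_distrib]
        abel
      neg_mem' := by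
        rintro x ⟨w, hw, n, rfl⟩
        refine ⟨-w, V.neg_mem hw, -n, ?_⟩
        simp only [Pi.neg_apply, neg_smul, Finset.sum_neg_distrib]
        abel } with hW
    intro x
    have hx : x ∈ W := by
      refine eq_top_of_sup_two W k hk ?_ x
      intro x
      set a := b.repr (QuotientAddGroup.mk x : G ⧸ T) with ha
      set y : G := x - ∑ i, ((a i).val : ℤ) • g i with hy
      have hyT : y ∈ T := by
        rw [← QuotientAddGroup.eq_zero_iff, hy, QuotientAddGroup.mk_sub, sub_eq_zero]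
        have h1 : (QuotientAddGroup.mk (∑ i, ((a i).val : ℤ) • g i) : G ⧸ T) =
            ∑ i, a i • b i := by
          have h2 := map_sum (QuotientAddGroup.mk' T) (fun i => ((a i).val : ℤ) • g i)
            Finset.univ
          simp only [QuotientAddGroup.mk'_apply] at h2
          rw [h2]
          apply Finset.sum_congr rfl
          intro i _
          rw [natCast_zsmul, QuotientAddGroup.mk_nsmul, hg]
          conv_rhs => rw [← ZMod.natCast_zmod_val (a i)]
          rw [Nat.cast_smul_eq_nsmul]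
        rw [h1, ha, b.sum_repr]
      rw [hT, AddSubgroup.mem_sup] at hyT
      obtain ⟨u, hu, z, ⟨z', rfl⟩, huz⟩ := hyT
      refine ⟨u + ∑ i, ((a i).val : ℤ) • g i, ⟨u, hu, _, rfl⟩, z', ?_⟩
      have h3 : x = y + ∑ i, ((a i).val : ℤ) • g i := by
        rw [hy]
        abel
      rw [h3, ← huz, nsmulAddMonoidHom_apply]
      abel
    exact hx

/-- An integral family of independent vectors annihilating `V` modulo `2 ^ k`, for large `k`, has
at most `log2 [G : V + 2 G]` members. -/
theorem dvd_of_annihilate {d r k : ℕ} (v x : Fin r → Fin d → ℤ) (M : ℤ)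
    (hvx : ∀ i j, ∑ t, v i t * x j t = if i = j then M else 0)
    (V : AddSubgroup (Fin d → ZMod (2 ^ k)))
    (hV : ∀ i, ∀ a ∈ V, ∑ t, (v i t : ZMod (2 ^ k)) * a t = 0)
    (hr : (V ⊔ (nsmulAddMonoidHom (α := Fin d → ZMod (2 ^ k)) 2).range).index < 2 ^ r) :
    (2 : ℤ) ^ k ∣ M ^ r := by
  classical
  have hk : ∀ a : Fin d → ZMod (2 ^ k), (2 ^ k) • a = 0 := by
    intro a
    funext t
    rw [Pi.smul_apply, nsmul_eq_mul, ZMod.natCast_self, zero_mul, Pi.zero_apply]
  obtain ⟨s, g, hs, hg⟩ := exists_generators V k hk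
  rw [← hs] at hr
  have hsr : s < r := (Nat.pow_lt_pow_iff_right (by norm_num)).mp hr
  choose w hw n hn using fun j : Fin r => hg (fun t => (x j t : ZMod (2 ^ k)))
  have key : (M : ZMod (2 ^ k)) ^ r = 0 := by
    refine pow_eq_zero_of_factor hsr (M : ZMod (2 ^ k))
      (Matrix.of fun i l => ∑ t, (v i t : ZMod (2 ^ k)) * g l t)
      (Matrix.of fun l j => ((n j l : ℤ) : ZMod (2 ^ k))) ?_
    ext i j
    rw [Matrix.mul_apply]
    simp only [Matrix.of_apply]
    have h1 : ∑ t, (v i t : ZMod (2 ^ k)) * (x j t : ZMod (2 ^ k)) =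
        if i = j then (M : ZMod (2 ^ k)) else 0 := by
      have h2 := congrArg (fun z : ℤ => (z : ZMod (2 ^ k))) (hvx i j)
      push_cast at h2
      rw [h2]
    have h2 : ∑ t, (v i t : ZMod (2 ^ k)) * (x j t : ZMod (2 ^ k)) =
        ∑ l, (∑ t, (v i t : ZMod (2 ^ k)) * g l t) * ((n j l : ℤ) : ZMod (2 ^ k)) := by
      have h3 : ∀ t, (x j t : ZMod (2 ^ k)) = w j t + ∑ l, (n j l : ZMod (2 ^ k)) * g l t := by
        intro t
        have h4 := congrFun (hn j) t
        rw [h4, Pi.add_apply, Finset.sum_apply]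
        congr 1
        apply Finset.sum_congr rfl
        intro l _
        rw [Pi.smul_apply, zsmul_eq_mul]
      rw [Finset.sum_congr rfl (fun t _ => by rw [h3 t, mul_add])]
      rw [Finset.sum_add_distrib, hV i (w j) (hw j), zero_add]
      simp_rw [Finset.mul_sum, Finset.sum_mul]
      rw [Finset.sum_comm]
      apply Finset.sum_congr rfl
      intro l _
      apply Finset.sum_congr rfl
      intro t _
      ring
    rw [← h2, h1, Matrix.scalar_apply, Matrix.diagonal_apply]
  have h5 : ((M ^ r : ℤ) : ZMod (2 ^ k)) = 0 := by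
    push_cast
    exact key
  rw [ZMod.intCast_zmod_eq_zero_iff_dvd] at h5
  push_cast at h5
  exact h5

end Pool.Agent.Helper73.BG
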